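import Mathlib

set_option autoImplicit false

/-!
# Project ML: base field reduction for the upper half of Malle's weak conjecture (MP_af4c59_nt)
-/

namespace Pool.Agent.W670.ML

open NumberField

noncomputable section

/-- `[L:K] = n` and the action of the Galois group on the `n` embeddings of `L` in the algebraic
closure `Ω` is permutation isomorphic to `G`. -/
def HasGroup (K Ω : Type) [Field K] [Field Ω] [Algebra K Ω] (n : ℕ)
    (G : Subgroup (Equiv.Perm (Fin n))) (L : IntermediateField K Ω) : Prop :=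
  Module.finrank K L = n ∧
    ∃ e : (↥L →ₐ[K] Ω) ≃ Fin n, ∀ τ : Equiv.Perm (Fin n), τ ∈ G ↔
      ∃ σ : Ω ≃ₐ[K] Ω, ∀ φ : ↥L →ₐ[K] Ω, τ (e φ) = e (σ.toAlgHom.comp φ)

/-- The absolute norm of the relative discriminant of `L/K`, i.e. the absolute norm of the
different. -/
def relDisc (K L : Type) [Field K] [NumberField K] [Field L] [NumberField L] [Algebra K L] : ℕ :=
  Ideal.absNorm (differentIdeal (𝓞 K) (𝓞 L))

/-- The fields counted by `N_{n,K}(X;G)`. -/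
def fields (K : Type) [Field K] [NumberField K] (n : ℕ) (G : Subgroup (Equiv.Perm (Fin n)))
    (X : ℝ) : Set (IntermediateField K (AlgebraicClosure K)) :=
  {L | HasGroup K (AlgebraicClosure K) n G L ∧ ∃ _ : NumberField L, (relDisc K L : ℝ) ≤ X}

/-- `N_{n,K}(X;G)`. -/
def N (K : Type) [Field K] [NumberField K] (n : ℕ) (G : Subgroup (Equiv.Perm (Fin n)))
    (X : ℝ) : ℕ := (fields K n G X).ncard

/-- `ind g = n -` number of cycles. -/
def ind {n : ℕ} (g : Equiv.Perm (Fin n)) : ℕ := g.cycleType.sum - Multiset.card g.cycleType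

/-- `G` is transitive. -/
def Trans {n : ℕ} (G : Subgroup (Equiv.Perm (Fin n))) : Prop := ∀ i j : Fin n, ∃ g ∈ G, g i = j

/-- `m` is the least index of a nontrivial element of `G`, i.e. `a(G) = 1/m`. -/
def MinInd {n : ℕ} (G : Subgroup (Equiv.Perm (Fin n))) (m : ℕ) : Prop :=
  IsLeast {k : ℕ | ∃ g ∈ G, g ≠ 1 ∧ k = ind g} m

/-- The upper half of Malle's weak conjecture over `K`, for all groups. -/
def Upper (K : Type) [Field K] [NumberField K] : Prop :=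
  ∀ (n : ℕ) (G : Subgroup (Equiv.Perm (Fin n))), 2 ≤ n → Trans G → ∀ m : ℕ, MinInd G m →
    ∀ ε : ℝ, 0 < ε → ∃ c : ℝ, 0 < c ∧ ∃ X₀ : ℝ, ∀ X : ℝ, X₀ ≤ X →
      (N K n G X : ℝ) < c * X ^ ((1 : ℝ) / (m : ℝ) + ε)

/-- The upper half over all number fields `K`, with a constant which depends only on the degree of
`K`, on `n` (or `G`) and `ε`, up to the factor `|d_K| ^ (n (a(G) + ε))`; for all `X`. -/
def UniformUpper : Prop :=
  ∀ (d n : ℕ) (G : Subgroup (Equiv.Perm (Fin n))), 2 ≤ n → Trans G → ∀ m : ℕ, MinInd G m →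
    ∀ ε : ℝ, 0 < ε → ∃ c : ℝ, 0 < c ∧
      ∀ (K : Type) [Field K] [NumberField K], Module.finrank ℚ K = d → ∀ X : ℝ, 0 < X →
        (N K n G X : ℝ) ≤ c * (((discr K).natAbs : ℝ) ^ n * X) ^ ((1 : ℝ) / (m : ℝ) + ε)

/-- The towers `ℚ ⊆ K ⊆ L ⊆ ℚbar` with `[K:ℚ] = d`, such that the group of `L/K` is `G` and
`|d_L| ≤ X`. -/
def towers (d n : ℕ) (G : Subgroup (Equiv.Perm (Fin n))) (X : ℝ) :
    Set (Σ K : IntermediateField ℚ (AlgebraicClosure ℚ), IntermediateField K (AlgebraicClosure ℚ)) :=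
  {p | Module.finrank ℚ p.1 = d ∧ HasGroup p.1 (AlgebraicClosure ℚ) n G p.2 ∧
    ∃ _ : NumberField p.2, ((discr p.2).natAbs : ℝ) ≤ X}

/-- The number of towers is `O(X ^ (a(G) + ε))`. -/
def TowerUpper : Prop :=
  ∀ (d n : ℕ) (G : Subgroup (Equiv.Perm (Fin n))), 1 ≤ d → 2 ≤ n → Trans G → ∀ m : ℕ,
    MinInd G m → ∀ ε : ℝ, 0 < ε → ∃ c : ℝ, 0 < c ∧ ∀ X : ℝ, 0 < X →
      (towers d n G X).Finite ∧
      ((towers d n G X).ncard : ℝ) ≤ c * X ^ ((1 : ℝ) / (m : ℝ) + ε)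

open Classical in
/-- The transitive subgroups of `S_N` whose nontrivial elements have index at least `m`. -/
def bigInd (N m : ℕ) : Finset (Subgroup (Equiv.Perm (Fin N))) :=
  Finset.univ.filter (fun H => Trans H ∧ ∀ h ∈ H, h ≠ 1 → m ≤ ind h)

/-- The unconditional comparison. -/
def Comparison : Prop :=
  ∀ (K : Type) [Field K] [NumberField K] (n : ℕ) (G : Subgroup (Equiv.Perm (Fin n))), 2 ≤ n →
    Trans G → ∀ m : ℕ, MinInd G m → ∀ X : ℝ,
      N K n G X ≤ ∑ H ∈ bigInd (n * Module.finrank ℚ K) m,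
        N ℚ (n * Module.finrank ℚ K) H (((discr K).natAbs : ℝ) ^ n * X)

/-! ### The parts of the proof -/

/-- IA -/
def S_IA : Prop := ∀ (N : ℕ) (τ : Equiv.Perm (Fin N)) (B : Finset (Fin N)),
  (∀ x ∈ B, τ x ∉ B) → B.card ≤ ind τ

/-- IB -/
def S_IB : Prop := ∀ (n N : ℕ) (f : Fin n → Fin N), Function.Injective f →
  ∀ (g : Equiv.Perm (Fin n)) (τ : Equiv.Perm (Fin N)), (∀ a, τ (f a) = f (g a)) → ind g ≤ ind τ

/-- TR: transport along an isomorphism of the big fields. -/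
def S_TR : Prop := ∀ (K Ω Ω' : Type) [Field K] [Field Ω] [Field Ω'] [Algebra K Ω] [Algebra K Ω']
  (ι : Ω ≃ₐ[K] Ω') (n : ℕ) (G : Subgroup (Equiv.Perm (Fin n))) (L : IntermediateField K Ω),
  HasGroup K Ω n G L → HasGroup K Ω' n G (L.map ι.toAlgHom)

/-- EX: every subfield of degree `N` has a transitive group. -/
def S_EX : Prop := ∀ (Ω : Type) [Field Ω] [Algebra ℚ Ω] [IsAlgClosure ℚ Ω] (N : ℕ)
  (M : IntermediateField ℚ Ω), 0 < N → Module.finrank ℚ M = N →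
  ∃ H : Subgroup (Equiv.Perm (Fin N)), Trans H ∧ HasGroup ℚ Ω N H M

/-- IC (from IA, IB): index bound for the group of `L/ℚ`. -/
def S_IC : Prop := ∀ (K Ω : Type) [Field K] [NumberField K] [Field Ω] [Algebra K Ω]
  [Algebra ℚ Ω] [IsScalarTower ℚ K Ω] [IsAlgClosure ℚ Ω] [IsAlgClosure K Ω] (n N m : ℕ)
  (G : Subgroup (Equiv.Perm (Fin n))) (H : Subgroup (Equiv.Perm (Fin N)))
  (L : IntermediateField K Ω), HasGroup K Ω n G L → HasGroup ℚ Ω N H (L.restrictScalars ℚ) →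
  m ≤ n → (∀ g ∈ G, g ≠ 1 → m ≤ ind g) → ∀ h ∈ H, h ≠ 1 → m ≤ ind h

/-- MI: basic facts on the minimal index. -/
def S_MI : Prop := ∀ (n : ℕ) (G : Subgroup (Equiv.Perm (Fin n))), 2 ≤ n → Trans G →
  (∃ m, MinInd G m) ∧ ∀ m, MinInd G m → 1 ≤ m ∧ m ≤ n ∧ ∀ g ∈ G, g ≠ 1 → m ≤ ind g

/-- HE: Hermite. -/
def S_HE : Prop := ∀ (Ω : Type) [Field Ω] [Algebra ℚ Ω] (Y : ℝ),
  {M : IntermediateField ℚ Ω | ∃ _ : NumberField M, ((discr M).natAbs : ℝ) ≤ Y}.Finite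

/-- DI: discriminants in towers. -/
def S_DI : Prop := (∀ (K L : Type) [Field K] [NumberField K] [Field L] [NumberField L]
    [Algebra K L], (discr L).natAbs = relDisc K L * (discr K).natAbs ^ Module.finrank K L) ∧
  (∀ (L : Type) [Field L] [NumberField L] [Algebra ℚ L], (discr L).natAbs = relDisc ℚ L) ∧
  (∀ (K L : Type) [Field K] [NumberField K] [Field L] [NumberField L] [Algebra K L],
    1 ≤ relDisc K L)

/-- AB: the fields `L/K` inject into subfields of `ℚbar` (from TR, EX, IC, MI, HE, DI). -/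
def S_AB : Prop := ∀ (N m : ℕ) (Ω : Type) [Field Ω] [Algebra ℚ Ω] [IsAlgClosure ℚ Ω], 0 < N →
  ∀ (S : Set (IntermediateField ℚ Ω)) (Y : ℝ),
  (∀ M ∈ S, Module.finrank ℚ M = N ∧ (∃ _ : NumberField M, ((discr M).natAbs : ℝ) ≤ Y) ∧
    ∀ H : Subgroup (Equiv.Perm (Fin N)), HasGroup ℚ Ω N H M → ∀ h ∈ H, h ≠ 1 → m ≤ ind h) →
  S.Finite ∧ S.ncard ≤ ∑ H ∈ bigInd N m, Pool.Agent.W670.ML.N ℚ N H Y

/-- UB: the consequence of `Upper ℚ` for the sum (from MI, DI, HE). -/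
def S_UB : Prop := Upper ℚ → ∀ (N m : ℕ), 2 ≤ N → 1 ≤ m → ∀ ε : ℝ, 0 < ε → ∃ c : ℝ, 0 < c ∧
  ∀ Y : ℝ, 0 < Y → ((∑ H ∈ bigInd N m, Pool.Agent.W670.ML.N ℚ N H Y : ℕ) : ℝ) ≤
    c * Y ^ ((1 : ℝ) / (m : ℝ) + ε)

/-- SF: the number of subfields is bounded in terms of the degree. -/
def S_SF : Prop := ∀ N : ℕ, ∃ C : ℕ, ∀ (Ω : Type) [Field Ω] [Algebra ℚ Ω] [IsAlgClosure ℚ Ω]
  (M : IntermediateField ℚ Ω), Module.finrank ℚ M = N → 0 < N →
  {K : IntermediateField ℚ Ω | K ≤ M}.Finite ∧ {K : IntermediateField ℚ Ω | K ≤ M}.ncard ≤ C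

/-- CMP (from IC, MI, DI, AB) -/
def S_CMP : Prop := Comparison

/-- UNI (from CMP, UB, MI) -/
def S_UNI : Prop := Upper ℚ → UniformUpper

/-- ALL -/
def S_ALL : Prop := UniformUpper → ∀ (K : Type) [Field K] [NumberField K], Upper K

/-- TOW (from IC, MI, DI, AB, UB, SF) -/
def S_TOW : Prop := Upper ℚ → TowerUpper

/-- The final statement. -/
def S_MAIN : Prop := Comparison ∧ (Upper ℚ ↔ ∀ (K : Type) [Field K] [NumberField K], Upper K) ∧
  (Upper ℚ ↔ UniformUpper) ∧ (Upper ℚ → TowerUpper)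

end

end Pool.Agent.W670.ML
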