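import Pool.Agent.W670.ML.Defs

set_option autoImplicit false

/-!
# Project ML2: the strong uniform bound (power trick with composita)
-/

namespace Pool.Agent.W670.ML

open NumberField

noncomputable section

/-- The upper half over all number fields `K`, uniformly with the factor `|d_K| ^ ε` only: the
constant depends only on `[K : ℚ]`, `G` and `ε`. -/
def StrongUniform : Prop :=
  ∀ (d n : ℕ) (G : Subgroup (Equiv.Perm (Fin n))), 2 ≤ n → Trans G → ∀ m : ℕ, MinInd G m →
    ∀ ε : ℝ, 0 < ε → ∃ c : ℝ, 0 < c ∧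
      ∀ (K : Type) [Field K] [NumberField K], Module.finrank ℚ K = d → ∀ X : ℝ, 0 < X →
        (N K n G X : ℝ) ≤
          c * ((discr K).natAbs : ℝ) ^ ε * X ^ ((1 : ℝ) / (m : ℝ) + ε)

/-- DB: dual bases (the ring of integers of `B` is projective over that of `K`; trace form). -/
def S_DB : Prop := ∀ (K B : Type) [Field K] [NumberField K] [Field B] [NumberField B]
  [Algebra K B], ∃ (s : ℕ) (β γ : Fin s → B), (∀ j, IsIntegral ℤ (β j)) ∧
    (∀ j, ∀ y : B, IsIntegral ℤ y → IsIntegral ℤ (Algebra.trace K B (γ j * y))) ∧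
    ∀ y : B, y = ∑ j, Algebra.trace K B (γ j * y) • β j

/-- `M` is generated over `K` by the images of `A` and `B`. -/
def Gen (K A B M : Type) [Field K] [Field A] [Field B] [Field M] [Algebra K M] [Algebra A M]
    [Algebra B M] : Prop :=
  ∀ F : IntermediateField K M, (∀ a : A, algebraMap A M a ∈ F) →
    (∀ b : B, algebraMap B M b ∈ F) → F = ⊤

/-- DE: the trace identity in a compositum. -/
def S_DE : Prop := ∀ (K A B M : Type) [Field K] [NumberField K] [Field A] [NumberField A]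
  [Field B] [NumberField B] [Field M] [NumberField M] [Algebra K A] [Algebra K B] [Algebra K M]
  [Algebra A M] [Algebra B M] [IsScalarTower K A M] [IsScalarTower K B M], Gen K A B M →
  ∀ (s : ℕ) (β γ : Fin s → B), (∀ y : B, y = ∑ j, Algebra.trace K B (γ j * y) • β j) →
  ∀ x : M, x = ∑ j, algebraMap A M (Algebra.trace A M (x * algebraMap B M (β j))) *
    algebraMap B M (γ j)

/-- DV (from DB, DE): the different of `M/A` divides the different of `B/K`. -/
def S_DV : Prop := ∀ (K A B M : Type) [Field K] [NumberField K] [Field A] [NumberField A]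
  [Field B] [NumberField B] [Field M] [NumberField M] [Algebra K A] [Algebra K B] [Algebra K M]
  [Algebra A M] [Algebra B M] [IsScalarTower K A M] [IsScalarTower K B M], Gen K A B M →
  (differentIdeal (𝓞 K) (𝓞 B)).map (algebraMap (𝓞 B) (𝓞 M)) ≤ differentIdeal (𝓞 A) (𝓞 M)

/-- DD (from DV, DI) -/
def S_DD : Prop := ∀ (K A B M : Type) [Field K] [NumberField K] [Field A] [NumberField A]
  [Field B] [NumberField B] [Field M] [NumberField M] [Algebra K A] [Algebra K B] [Algebra K M]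
  [Algebra A M] [Algebra B M] [IsScalarTower K A M] [IsScalarTower K B M], Gen K A B M →
  relDisc K M ≤ relDisc K A ^ Module.finrank A M * relDisc K B ^ Module.finrank B M

/-- DM (from DD, DI): composita of several fields. -/
def S_DM : Prop := ∀ (K Ω : Type) [Field K] [NumberField K] [Field Ω] [Algebra K Ω] (n r : ℕ)
  (X : ℝ) (L : Fin r → IntermediateField K Ω), 1 ≤ n → 1 ≤ X →
  (∀ i, Module.finrank K (L i) = n ∧ ∃ _ : NumberField (L i), (relDisc K (L i) : ℝ) ≤ X) →
  ∃ _ : NumberField ↥(⨆ i, L i), (relDisc K ↥(⨆ i, L i) : ℝ) ^ n ≤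
    X ^ (r * Module.finrank K ↥(⨆ i, L i))

/-- IQ: index and fibres. -/
def S_IQ : Prop := ∀ (k n f : ℕ) (p : Fin k → Fin n),
  (∀ b, (Finset.univ.filter (fun a => p a = b)).card = f) →
  ∀ (τ : Equiv.Perm (Fin k)) (g : Equiv.Perm (Fin n)), (∀ a, p (τ a) = g (p a)) →
  f * ind g ≤ ind τ

/-- IM (from IQ): index in composita. -/
def S_IM : Prop := ∀ (K Ω : Type) [Field K] [NumberField K] [Field Ω] [Algebra K Ω]
  [IsAlgClosure K Ω] (n k m r : ℕ) (G : Subgroup (Equiv.Perm (Fin n)))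
  (H : Subgroup (Equiv.Perm (Fin k))) (L : Fin r → IntermediateField K Ω), 1 ≤ n →
  (∀ i, HasGroup K Ω n G (L i)) → (∀ g ∈ G, g ≠ 1 → m ≤ ind g) →
  HasGroup K Ω k H (⨆ i, L i) → ∀ h ∈ H, h ≠ 1 → k * m ≤ n * ind h

/-- EXK: as EX over a number field. -/
def S_EXK : Prop := ∀ (K Ω : Type) [Field K] [NumberField K] [Field Ω] [Algebra K Ω]
  [IsAlgClosure K Ω] (N : ℕ) (M : IntermediateField K Ω), 0 < N → Module.finrank K M = N →
  ∃ H : Subgroup (Equiv.Perm (Fin N)), Trans H ∧ HasGroup K Ω N H M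

/-- PS (from IC, IM, EXK, DM, DI, MI): the compositum of `r` of the fields. -/
def S_PS : Prop := ∀ (K : Type) [Field K] [NumberField K] (n m r : ℕ)
  (G : Subgroup (Equiv.Perm (Fin n))) (X : ℝ)
  (L : Fin r → IntermediateField K (AlgebraicClosure K)), 2 ≤ n → 1 ≤ r → Trans G →
  MinInd G m → 1 ≤ X → (∀ i, L i ∈ fields K n G X) →
  ∃ q : ℕ, 1 ≤ q ∧ q * n ≤ n ^ r ∧ Module.finrank K ↥(⨆ i, L i) = q * n ∧
    (∃ _ : NumberField ↥(⨆ i, L i), ((discr ↥(⨆ i, L i)).natAbs : ℝ) ≤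
      ((discr K).natAbs : ℝ) ^ (q * n) * X ^ (r * q)) ∧
    ∀ (N : ℕ) (H : Subgroup (Equiv.Perm (Fin N))),
      HasGroup ℚ (AlgebraicClosure K) N H ((⨆ i, L i).restrictScalars ℚ) →
      ∀ h ∈ H, h ≠ 1 → q * m ≤ ind h

/-- The bound of the power of the number of fields. -/
def PowerBound : Prop := ∀ (d n m r : ℕ) (G : Subgroup (Equiv.Perm (Fin n))), 2 ≤ n → 1 ≤ r →
  Trans G → MinInd G m → ∀ δ : ℝ, 0 < δ → ∃ c : ℝ, 0 < c ∧
    ∀ (K : Type) [Field K] [NumberField K], Module.finrank ℚ K = d → ∀ X : ℝ, 1 ≤ X →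
      (N K n G X : ℝ) ^ r ≤
        c * ((discr K).natAbs : ℝ) ^ ((n : ℝ) / (m : ℝ) + (n : ℝ) ^ r * δ) *
          X ^ ((r : ℝ) / (m : ℝ) + (r : ℝ) * (n : ℝ) ^ r * δ)

/-- BD (from PS, AB, UB, SF, MI) -/
def S_BD : Prop := Upper ℚ → PowerBound

/-- FN (from MI, DI) -/
def S_FN : Prop := PowerBound → StrongUniform

/-- AL -/
def S_AL : Prop := StrongUniform → ∀ (K : Type) [Field K] [NumberField K], Upper K

/-- The final statement. -/
def S_MAIN2 : Prop := Comparison ∧
  (Upper ℚ ↔ ∀ (K : Type) [Field K] [NumberField K], Upper K) ∧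
  (Upper ℚ ↔ StrongUniform) ∧ (Upper ℚ → TowerUpper)

end

end Pool.Agent.W670.ML
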