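import Pool.Agent.W670.ML.Defs

set_option autoImplicit false

namespace Pool.Agent.W670.ML

open NumberField

noncomputable section

theorem exists_rho (K Ω : Type) [Field K] [NumberField K] [Field Ω] [Algebra K Ω] [Algebra ℚ Ω]
    [IsScalarTower ℚ K Ω] [IsAlgClosure ℚ Ω] (τ0 : K →ₐ[ℚ] Ω) :
    ∃ ρ : Ω ≃ₐ[ℚ] Ω, ∀ x : K, ρ (algebraMap K Ω x) = τ0 x := by
  refine ⟨AlgEquiv.ofBijective (τ0.liftNormal Ω) (Algebra.IsAlgebraic.algHom_bijective _), ?_⟩
  intro x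
  have := τ0.liftNormal_commutes Ω x
  simpa using this

/-- embeddings -/
abbrev Emb (K Ω : Type) [Field K] [Field Ω] [Algebra K Ω] (M : IntermediateField K Ω) : Type :=
  ↥M →ₐ[K] Ω

/-- construct an embedding -/
def mkEmb (K Ω : Type) [Field K] [Field Ω] [Algebra K Ω] (M : IntermediateField K Ω)
    (f : ↥M →+* Ω) (h : ∀ r, f (algebraMap K M r) = algebraMap K Ω r) : Emb K Ω M :=
  { f with commutes' := h }

/-- the underlying ring homomorphism -/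
def ev (K Ω : Type) [Field K] [Field Ω] [Algebra K Ω] (M : IntermediateField K Ω)
    (φ : Emb K Ω M) : ↥M →+* Ω := φ.toRingHom

theorem emb_ext (K Ω : Type) [Field K] [Field Ω] [Algebra K Ω] (M : IntermediateField K Ω)
    {φ φ' : Emb K Ω M} (h : ∀ x, ev K Ω M φ x = ev K Ω M φ' x) : φ = φ' := AlgHom.ext h

/-- composition -/
def cmp (K Ω : Type) [Field K] [Field Ω] [Algebra K Ω] (M : IntermediateField K Ω)
    (σ : Ω ≃ₐ[K] Ω) (φ : Emb K Ω M) : Emb K Ω M := σ.toAlgHom.comp φ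

theorem ev_cmp (K Ω : Type) [Field K] [Field Ω] [Algebra K Ω] (M : IntermediateField K Ω)
    (σ : Ω ≃ₐ[K] Ω) (φ : Emb K Ω M) (x : ↥M) :
    ev K Ω M (cmp K Ω M σ φ) x = σ (ev K Ω M φ x) := rfl

theorem ev_mkEmb (K Ω : Type) [Field K] [Field Ω] [Algebra K Ω] (M : IntermediateField K Ω)
    (f : ↥M →+* Ω) (h : ∀ r, f (algebraMap K M r) = algebraMap K Ω r) (x : ↥M) :
    ev K Ω M (mkEmb K Ω M f h) x = f x := rfl

theorem hasGroup_iff (K Ω : Type) [Field K] [Field Ω] [Algebra K Ω] (n : ℕ)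
    (G : Subgroup (Equiv.Perm (Fin n))) (M : IntermediateField K Ω) :
    HasGroup K Ω n G M ↔ Module.finrank K M = n ∧ ∃ e : Emb K Ω M ≃ Fin n,
      ∀ τ : Equiv.Perm (Fin n), τ ∈ G ↔ ∃ σ : Ω ≃ₐ[K] Ω, ∀ φ, τ (e φ) = e (cmp K Ω M σ φ) :=
  Iff.rfl

section

variable {K Ω : Type} [Field K] [Field Ω] [Algebra K Ω] [Algebra ℚ K]
  [Algebra ℚ Ω] [IsScalarTower ℚ K Ω] (L : IntermediateField K Ω)

/-- the identity -/
def toL : ↥(L.restrictScalars ℚ) →+* ↥L where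
  toFun x := ⟨x.1, x.2⟩
  map_one' := rfl
  map_mul' _ _ := rfl
  map_zero' := rfl
  map_add' _ _ := rfl

/-- the identity -/
def ofL : ↥L →+* ↥(L.restrictScalars ℚ) where
  toFun x := ⟨x.1, x.2⟩
  map_one' := rfl
  map_mul' _ _ := rfl
  map_zero' := rfl
  map_add' _ _ := rfl

/-- `ρ ∘ ψ`. -/
def mk (ρ : Ω ≃ₐ[ℚ] Ω) (ψ : ↥L →ₐ[K] Ω) : Emb ℚ Ω (L.restrictScalars ℚ) :=
  mkEmb ℚ Ω (L.restrictScalars ℚ) (((ρ : Ω →+* Ω).comp (ψ : ↥L →+* Ω)).comp (toL L))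
    (by
      intro r
      show ((((ρ : Ω →+* Ω).comp (ψ : ↥L →+* Ω)).comp (toL L)).comp _) r = _
      exact RingHom.congr_fun (Subsingleton.elim _ _) r)

theorem mk_apply (ρ : Ω ≃ₐ[ℚ] Ω) (ψ : ↥L →ₐ[K] Ω) (x : ↥L) :
    ev ℚ Ω _ (mk L ρ ψ) (ofL L x) = ρ (ψ x) := rfl

theorem ext_ofL {φ φ' : Emb ℚ Ω (L.restrictScalars ℚ)}
    (h : ∀ x, ev ℚ Ω _ φ (ofL L x) = ev ℚ Ω _ φ' (ofL L x)) : φ = φ' := by
  apply emb_ext
  intro x
  exact h (toL L x)

end

theorem ic (h1 : S_IA) (h2 : S_IB) : S_IC := by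
  intro K Ω _ _ _ _ _ _ _ _ n N m G H L ⟨hn, eG, hG⟩ hHH hmn hind h hh hne
  rw [hasGroup_iff] at hHH
  obtain ⟨hN, eH, hH⟩ := hHH
  obtain ⟨σ, hσ⟩ := (hH h).1 hh
  have : ∃ φ0 : Emb ℚ Ω (L.restrictScalars ℚ), cmp ℚ Ω _ σ φ0 ≠ φ0 := by
    by_contra hcon
    push Not at hcon
    apply hne
    ext i
    have := hσ (eH.symm i)
    rw [hcon, Equiv.apply_symm_apply] at this
    rw [this]; rfl
  obtain ⟨φ0, hφ0⟩ := this
  let τ0 : K →ₐ[ℚ] Ω := RingHom.toRatAlgHom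
    ((ev ℚ Ω _ φ0).comp ((ofL L).comp (algebraMap K ↥L)))
  have hτ0 : ∀ x : K, τ0 x = ev ℚ Ω _ φ0 (ofL L (algebraMap K ↥L x)) := fun x => rfl
  obtain ⟨ρ, hρ⟩ := exists_rho K Ω τ0
  let f : Fin n → Fin N := fun a => eH (mk L ρ (eG.symm a))
  have hmk : Function.Injective (mk L ρ) := by
    intro ψ ψ' hψ
    ext x
    have := congrArg (fun φ => ev ℚ Ω _ φ (ofL L x)) hψ
    simp only [mk_apply] at this
    exact ρ.injective this
  have hf : Function.Injective f := fun a b hab => eG.symm.injective (hmk (eH.injective hab))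
  by_cases hc : ∀ x : K, σ (τ0 x) = τ0 x
  · -- Case B
    have hcomm : ∀ x : K, ρ.symm (σ (ρ (algebraMap K Ω x))) = algebraMap K Ω x := by
      intro x
      rw [hρ, hc, ← hρ, AlgEquiv.symm_apply_apply]
    let σ' : Ω ≃ₐ[K] Ω := AlgEquiv.ofRingEquiv
      (f := (ρ.toRingEquiv.trans σ.toRingEquiv).trans ρ.symm.toRingEquiv) hcomm
    have hσ' : ∀ y, σ' y = ρ.symm (σ (ρ y)) := fun y => rfl
    let P : (↥L →ₐ[K] Ω) ≃ (↥L →ₐ[K] Ω) :=
      { toFun := fun ψ => σ'.toAlgHom.comp ψ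
        invFun := fun ψ => σ'.symm.toAlgHom.comp ψ
        left_inv := fun ψ => by
          ext x
          exact σ'.symm_apply_apply (ψ x)
        right_inv := fun ψ => by
          ext x
          exact σ'.apply_symm_apply (ψ x) }
    let g : Equiv.Perm (Fin n) := (eG.symm.trans P).trans eG
    have hg : ∀ a, g a = eG (σ'.toAlgHom.comp (eG.symm a)) := fun a => rfl
    have hgG : g ∈ G := (hG g).2 ⟨σ', fun φ => by rw [hg, Equiv.symm_apply_apply]⟩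
    have hcov : ∀ ψ : ↥L →ₐ[K] Ω, cmp ℚ Ω _ σ (mk L ρ ψ) = mk L ρ (σ'.toAlgHom.comp ψ) := by
      intro ψ
      apply ext_ofL
      intro x
      rw [ev_cmp, mk_apply, mk_apply]
      show σ (ρ (ψ x)) = ρ (σ' (ψ x))
      rw [hσ', AlgEquiv.apply_symm_apply]
    have hfg : ∀ a, h (f a) = f (g a) := by
      intro a
      show h (eH (mk L ρ (eG.symm a))) = eH (mk L ρ (eG.symm (g a)))
      rw [hσ, hg, Equiv.symm_apply_apply, hcov]
    let ψ0 : ↥L →ₐ[K] Ω :=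
      { ((ρ.symm : Ω →+* Ω).comp ((ev ℚ Ω _ φ0).comp (ofL L))) with
        commutes' := fun r => by
          show ρ.symm (ev ℚ Ω _ φ0 (ofL L (algebraMap K ↥L r))) = algebraMap K Ω r
          rw [← hτ0, ← hρ, AlgEquiv.symm_apply_apply] }
    have hψ0 : mk L ρ ψ0 = φ0 := by
      apply ext_ofL
      intro x
      rw [mk_apply]
      show ρ (ρ.symm (ev ℚ Ω _ φ0 (ofL L x))) = ev ℚ Ω _ φ0 (ofL L x)
      rw [AlgEquiv.apply_symm_apply]
    have hg1 : g ≠ 1 := by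
      intro hg1
      have h3 : g (eG ψ0) = eG ψ0 := by rw [hg1]; rfl
      rw [hg, Equiv.symm_apply_apply] at h3
      have h4 := eG.injective h3
      apply hφ0
      have h5 := hcov ψ0
      rw [h4, hψ0] at h5
      exact h5
    exact (hind g hgG hg1).trans (h2 n N f hf g h hfg)
  · -- Case A
    have h3 := h1 N h (Finset.univ.map ⟨f, hf⟩) (by
      intro x hx hx'
      rw [Finset.mem_map] at hx hx'
      obtain ⟨a, -, rfl⟩ := hx
      obtain ⟨b, -, hb⟩ := hx'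
      apply hc
      intro k
      have h4 : h (f a) = f b := hb.symm
      have h5 : h (eH (mk L ρ (eG.symm a))) = eH (mk L ρ (eG.symm b)) := h4
      rw [hσ] at h5
      have h6 := congrArg (fun φ => ev ℚ Ω _ φ (ofL L (algebraMap K ↥L k))) (eH.injective h5)
      have h7 : σ (ρ ((eG.symm a) (algebraMap K ↥L k))) = ρ ((eG.symm b) (algebraMap K ↥L k)) := h6
      rw [AlgHom.commutes, AlgHom.commutes, hρ] at h7
      exact h7)
    rw [Finset.card_map, Finset.card_univ, Fintype.card_fin] at h3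
    exact hmn.trans h3

end

end Pool.Agent.W670.ML
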