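import Pool.Agent.W670.ML.Defs

set_option autoImplicit false

namespace Pool.Agent.W670.ML

theorem main (hc : S_CMP) (hu : S_UNI) (ha : S_ALL) (ht : S_TOW) : S_MAIN :=
  ⟨hc, ⟨fun h => ha (hu h), fun h => h ℚ⟩, ⟨hu, fun h => ha h ℚ⟩, ht⟩

end Pool.Agent.W670.ML
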