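import Pool.Agent.W670.ML.Defs2

set_option autoImplicit false

namespace Pool.Agent.W670.ML

theorem main2 (hc : S_CMP) (hb : S_BD) (hf : S_FN) (ha : S_AL) (ht : S_TOW) : S_MAIN2 :=
  ⟨hc, ⟨fun h => ha (hf (hb h)), fun h => h ℚ⟩, ⟨fun h => hf (hb h), fun h => ha h ℚ⟩, ht⟩

end Pool.Agent.W670.ML
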