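import Pool.Agent.W670.ML.Main
import Pool.Agent.W670.ML.IC
import Pool.Agent.W571.ML.IA
import Pool.Agent.W441.ML.IB
import Pool.Agent.W370.ML.Tr
import Pool.Agent.W571.ML.EX
import Pool.Agent.W884.ML.MI
import Pool.Agent.W33.ML.HE
import Pool.Agent.W796.ML.DI
import Pool.Agent.W168.ML.AB
import Pool.Agent.W19.ML.UB
import Pool.Agent.W918.ML.SF
import Pool.Agent.W683.ML.Cmp
import Pool.Agent.W736.ML.UNI
import Pool.Agent.W768.ML.All
import Pool.Agent.W644.ML.Tow

set_option autoImplicit false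

namespace Pool.Agent.W670.ML

theorem di : S_DI := Pool.Agent.W796.ML.DI.di
theorem mi : S_MI := Pool.Agent.W884.ML.mi
theorem he : S_HE := Pool.Agent.W33.ML.he
theorem ab : S_AB := Pool.Agent.W168.ML.ab Pool.Agent.W370.ML.TR.tr Pool.Agent.W571.ML.ex he di
theorem ub : S_UB := Pool.Agent.W19.ML.ub mi he di
theorem sf : S_SF := Pool.Agent.W918.ML.sf
theorem icc : S_IC := ic Pool.Agent.W571.ML.ia Pool.Agent.W441.ML.ib
theorem cmpp : S_CMP := Pool.Agent.W683.ML.cmp icc mi di ab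
theorem tow : S_TOW := Pool.Agent.W644.ML.tow icc mi di ab ub sf
theorem main1 : S_MAIN := main cmpp (Pool.Agent.W736.ML.uni cmpp ub mi) Pool.Agent.W768.ML.all tow

end Pool.Agent.W670.ML
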