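import Pool.Agent.W670.ML.Parts1
import Pool.Agent.W670.ML.Main2
import Pool.Agent.W82.ML2.DB
import Pool.Agent.W150.ML2.DE
import Pool.Agent.W349.ML2.DV
import Pool.Agent.W132.ML2.DD
import Pool.Agent.W737.ML2.DM
import Pool.Agent.W240.ML2.IQ
import Pool.Agent.W505.ML2.IM
import Pool.Agent.W816.ML2.EXK
import Pool.Agent.W179.ML2.PS
import Pool.Agent.W135.ML2.BD
import Pool.Agent.W478.ML2.FN
import Pool.Agent.W52.ML2.AL

set_option autoImplicit false

namespace Pool.Agent.W670.ML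

theorem dv : S_DV := Pool.Agent.W349.ML2.dv Pool.Agent.W82.ML2.db Pool.Agent.W150.ML2.de
theorem dd : S_DD := Pool.Agent.W132.ML2.dd dv di
theorem dm : S_DM := Pool.Agent.W737.ML2.DM.dm dd di
theorem im : S_IM := Pool.Agent.W505.ML2.im Pool.Agent.W240.ML2.iq
theorem ps : S_PS := Pool.Agent.W179.ML2.ps icc im Pool.Agent.W816.ML2.exk dm di mi
theorem bd : S_BD := Pool.Agent.W135.ML2.bd ps ab ub sf mi
theorem fn : S_FN := Pool.Agent.W478.ML2.FN.fn mi di
theorem al : S_AL := Pool.Agent.W52.ML2.al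
theorem mainTwo : S_MAIN2 := main2 cmpp bd fn al tow

end Pool.Agent.W670.ML
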